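import Mathlib
import Pool.Agent.H325.EN.Defs

/-!
Project EN (helper325): left 3-Engel elements (`S_ENG`).
-/

set_option autoImplicit false

open scoped commutatorElement
open Pool.Agent.H325.EN

namespace Pool.Agent.H747.EN

theorem key {G : Type*} [Group G] {a : G} (h : L3 a) (x : G) :
    Commute ((x⁻¹ * a * x) * a * (x⁻¹ * a * x)⁻¹) a := by
  have h1 := h x
  simp only [Function.iterate_succ, Function.iterate_zero, Function.comp_apply, id_eq] at h1
  obtain ⟨b, hb⟩ : ∃ b, b = x⁻¹ * a * x := ⟨_, rfl⟩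
  have e1 : x⁻¹ * a⁻¹ * x * a = b⁻¹ * a := by
    rw [hb]
    group
  rw [e1] at h1
  obtain ⟨y, hy⟩ : ∃ y, y = (b⁻¹ * a)⁻¹ * a⁻¹ * (b⁻¹ * a) * a := ⟨_, rfl⟩
  rw [← hy] at h1
  have h2 : Commute y a := by
    have h3 : a⁻¹ * (y * a) = y := by
      have h4 : y⁻¹ * (a⁻¹ * (y * a)) = 1 := by
        rw [← h1]
        group
      exact (inv_mul_eq_one.mp h4).symm
    show y * a = a * y
    exact (inv_mul_eq_iff_eq_mul.mp h3)
  have h5 : Commute (a * y * a⁻¹ * a⁻¹) a := by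
    have ha : Commute a a := Commute.refl a
    exact ((ha.mul_left h2).mul_left ha.inv_left).mul_left ha.inv_left
  have h6 : b * a * b⁻¹ = (a * y * a⁻¹ * a⁻¹)⁻¹ := by
    rw [hy]
    group
  rw [← hb, h6]
  exact h5.inv_left

theorem eng : S_ENG.{0} := by
  intro G _ a h g
  obtain ⟨b, hb⟩ : ∃ b, b = g * a * g⁻¹ := ⟨_, rfl⟩
  have h1 : Commute (b * a * b⁻¹) a := by
    have h2 := key h g⁻¹
    rw [inv_inv, ← hb] at h2
    exact h2
  have h3 : Commute (a * b * a⁻¹) b := by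
    have h4 := key h g
    have h5 : g * ((g⁻¹ * a * g) * a * (g⁻¹ * a * g)⁻¹ * a) * g⁻¹ =
        g * (a * ((g⁻¹ * a * g) * a * (g⁻¹ * a * g)⁻¹)) * g⁻¹ := by
      rw [h4.eq]
    show a * b * a⁻¹ * b = b * (a * b * a⁻¹)
    have e1 : a * b * a⁻¹ * b = g * ((g⁻¹ * a * g) * a * (g⁻¹ * a * g)⁻¹ * a) * g⁻¹ := by
      rw [hb]
      group
    have e2 : b * (a * b * a⁻¹) = g * (a * ((g⁻¹ * a * g) * a * (g⁻¹ * a * g)⁻¹)) * g⁻¹ := by
      rw [hb]
      group
    rw [e1, e2, h5]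
  rw [← hb]
  have c1 : ⁅a, b⁆ = a * (b * a * b⁻¹)⁻¹ := by
    rw [commutatorElement_def]
    group
  have c2 : ⁅a, b⁆ = (a * b * a⁻¹) * b⁻¹ := by
    rw [commutatorElement_def]
  constructor
  · rw [c1]
    exact (Commute.refl a).mul_left h1.inv_left
  · rw [c2]
    exact h3.mul_left (Commute.refl b).inv_left

end Pool.Agent.H747.EN
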